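import Pool.Agent.Helper25.FL2.HmKfAux
import Pool.Agent.Helper53.FL2.Adj

/-!
# FL2-C3: mapping presheaves of the completions at level `≥ 1`
-/

open CategoryTheory MonoidalCategory Opposite

set_option autoImplicit false

namespace Pool.Agent.Helper25.FL2

open FL

theorem exists_HmKf {C : Type} [SmallCategory C] (T : Fr C) (τ : T ⟶ yoFr C) (X : SP (Wr C))
    (x y : Vt X) :
    ∃ e : Kf T (Hm X x y) ≅ Hm (Kf (VFr T) X)
        (vtMap ((SFun.ofFrame (VFr T) (VFrAug τ)).η X) x)
        (vtMap ((SFun.ofFrame (VFr T) (VFrAug τ)).η X) y),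
      (SFun.ofFrame T τ).η (Hm X x y) ≫ e.hom =
        HmMap ((SFun.ofFrame (VFr T) (VFrAug τ)).η X) x y :=
  exists_HmKf_aux T τ X x y fun B => Helper53FL2.exists_HmAdj B X x y

end Pool.Agent.Helper25.FL2
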