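import Pool.Agent.Helper58.FL2.Flag2

/-!
# FL2-C3: mapping presheaves of the completions at level `≥ 1` (given the suspension adjunction)
-/

open CategoryTheory MonoidalCategory Opposite

set_option autoImplicit false

namespace Pool.Agent.Helper25.FL2

open FL

variable {C : Type} [SmallCategory C]

/-- The simplex of `V[0]`. -/
def u0 (Z : Fin 0 → SP C) (θ : Wr C) (k : SimplexCategoryᵒᵖ) : VS Z θ k where
  f := ⟨fun _ => 0, fun _ _ _ => le_refl _⟩
  g _ j := j.elim0

lemma vs_zero {Z : Fin 0 → SP C} {θ : Wr C} {k : SimplexCategoryᵒᵖ} (u v : VS Z θ k) : u = v :=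
  VS.ext' (by ext x; exact congrArg Fin.val (Subsingleton.elim (α := Fin 1) _ _))
    fun _ j => j.elim0

lemma mps_pt {Z : Fin 0 → SP C} {X : SP (Wr C)} {m : SimplexCategory} (φ : MpS (V Z) X m)
    (θ : (Wr C)ᵒᵖ) (l : SimplexCategoryᵒᵖ) (s : l.unop ⟶ m) (u : VS Z θ.unop l) :
    φ.app θ l s u = (X.map (Wr.toPt θ.unop).op).app l ((X.obj (op Wr.pt)).map s.op
      (φ.app (op Wr.pt) (op m) (𝟙 m) (u0 Z Wr.pt (op m)))) := by
  have h1 : u = ((V Z).map (Wr.toPt θ.unop).op).app l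
      (((V Z).obj (op Wr.pt)).map s.op (u0 Z Wr.pt (op m))) := vs_zero _ _
  rw [h1]
  refine (φ.nat_left (Wr.toPt θ.unop).op l s _).trans ?_
  refine congrArg ((X.map (Wr.toPt θ.unop).op).app l) ?_
  refine Eq.trans ?_ (φ.nat_right (op Wr.pt) s.op (𝟙 m) (u0 Z Wr.pt (op m)))
  exact congrArg (fun t => φ.app (op Wr.pt) l t _) (Category.comp_id s).symm

/-- The letters of the frame `VFr T` at `[0]`. -/
abbrev Zf (T : Fr C) (m : SimplexCategory) : Fin 0 → SP C :=
  fun i => (T.obj ((Wr.pt : Wr C).obj i)).obj m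

/-- Evaluation at the vertex. -/
noncomputable def evp (T : Fr C) (X : SP (Wr C)) :
    (Kf (VFr T) X).obj (op Wr.pt) ⟶ X.obj (op Wr.pt) where
  app k := ↾ fun (φ : MpS (V (Zf T k.unop)) X k.unop) =>
    φ.app (op Wr.pt) k (𝟙 _) (u0 (Zf T k.unop) Wr.pt k)
  naturality k l α := by
    refine ConcreteCategory.hom_ext _ _ fun (φ : MpS (V (Zf T k.unop)) X k.unop) => ?_
    refine (mps_pt φ (op Wr.pt) l (𝟙 _ ≫ α.unop) _).trans ?_
    refine (congrArg (fun t => (X.map (Quiver.Hom.op t)).app l _)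
      (Wr.toPt_unique (Wr.toPt (Wr.pt : Wr C)) (𝟙 _))).trans ?_
    refine (sp_id X _).trans ?_
    exact congrArg (fun t => (X.obj (op Wr.pt)).map (Quiver.Hom.op t) _)
      (Category.id_comp α.unop)

lemma evp_inj (T : Fr C) (X : SP (Wr C)) (k : SimplexCategoryᵒᵖ) :
    Function.Injective ((evp T X).app k) := by
  intro (φ : MpS (V (Zf T k.unop)) X k.unop) (ψ : MpS (V (Zf T k.unop)) X k.unop) h
  refine MpS.ext ?_
  funext θ l s u
  refine (mps_pt φ θ l s u).trans (Eq.trans ?_ (mps_pt ψ θ l s u).symm)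
  exact congrArg (fun t => (X.map (Wr.toPt θ.unop).op).app l ((X.obj (op Wr.pt)).map s.op t)) h

lemma evp_eta (T : Fr C) (τ : T ⟶ yoFr C) (X : SP (Wr C)) (k : SimplexCategoryᵒᵖ)
    (x : (X.obj (op Wr.pt)).obj k) :
    (evp T X).app k ((((SFun.ofFrame (VFr T) (VFrAug τ)).η X).app (op Wr.pt)).app k x) = x := by
  have e : ∀ t : (Wr.pt : Wr C) ⟶ Wr.pt,
      (X.map t.op).app k ((X.obj (op Wr.pt)).map (𝟙 k.unop).op x) = x := by
    intro t
    rw [Wr.toPt_unique t (𝟙 _)]
    exact (sp_id X _).trans (sset_id _ x)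
  exact e _

theorem VFr_pt_isIso (T : Fr C) (τ : T ⟶ yoFr C) (X : SP (Wr C)) :
    IsIso (((SFun.ofFrame (VFr T) (VFrAug τ)).η X).app (op Wr.pt)) := by
  have h1 : ((SFun.ofFrame (VFr T) (VFrAug τ)).η X).app (op Wr.pt) ≫ evp T X = 𝟙 _ := by
    refine NatTrans.ext (funext fun k => ?_)
    refine ConcreteCategory.hom_ext _ _ fun x => ?_
    exact evp_eta T τ X k x
  refine ⟨evp T X, h1, ?_⟩
  refine NatTrans.ext (funext fun k => ?_)
  refine ConcreteCategory.hom_ext _ _ fun φ => ?_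
  refine evp_inj T X k ?_
  exact evp_eta T τ X k ((evp T X).app k φ)

/-- The two forms of the condition on the ends agree. -/
lemma ends_iff_one (T : Fr C) (τ : T ⟶ yoFr C) (X : SP (Wr C)) (x : Vt X) (c : C)
    (k : SimplexCategoryᵒᵖ) (φ : MpS (V1 ((T.obj c).obj k.unop)) X k.unop) (i : Fin 2) :
    ((Kf (VFr T) X).map (vtx (seg c) i).op).app k φ =
        cst ((Kf (VFr T) X).obj (op Wr.pt))
          (vtMap ((SFun.ofFrame (VFr T) (VFrAug τ)).η X) x) k ↔
      φ.app (op Wr.pt) k (𝟙 _) (vsEnd ((T.obj c).obj k.unop) i Wr.pt k) =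
        cst (X.obj (op Wr.pt)) x k := by
  have e1 : (evp T X).app k (((Kf (VFr T) X).map (vtx (seg c) i).op).app k φ) =
      φ.app (op Wr.pt) k (𝟙 _) (vsEnd ((T.obj c).obj k.unop) i Wr.pt k) := by
    refine congrArg (φ.app (op Wr.pt) k (𝟙 _)) ?_
    exact VS.ext' rfl fun p => p.elim0
  have e2 : (evp T X).app k (cst ((Kf (VFr T) X).obj (op Wr.pt))
      (vtMap ((SFun.ofFrame (VFr T) (VFrAug τ)).η X) x) k) = cst (X.obj (op Wr.pt)) x k := by
    refine (app_cst (evp T X) _ k).trans ?_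
    exact congrArg (fun t => cst (X.obj (op Wr.pt)) t k) (evp_eta T τ X _ x)
  rw [← e1, ← e2]
  exact (evp_inj T X k).eq_iff.symm

lemma ends_iff (T : Fr C) (τ : T ⟶ yoFr C) (X : SP (Wr C)) (x y : Vt X) (c : C)
    (k : SimplexCategoryᵒᵖ) (φ : MpS (V1 ((T.obj c).obj k.unop)) X k.unop) :
    (ends (Kf (VFr T) X) c).app k φ =
        cst _ (vtMap ((SFun.ofFrame (VFr T) (VFrAug τ)).η X) x,
          vtMap ((SFun.ofFrame (VFr T) (VFrAug τ)).η X) y) k ↔
      (endsV ((T.obj c).obj k.unop) X).app k φ = cst _ (x, y) k := by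
  constructor
  · intro h
    refine Prod.ext ?_ ?_
    · exact (ends_iff_one T τ X x c k φ 0).1 (congrArg Prod.fst h)
    · exact (ends_iff_one T τ X y c k φ 1).1 (congrArg Prod.snd h)
  · intro h
    refine Prod.ext ?_ ?_
    · exact (ends_iff_one T τ X x c k φ 0).2 (congrArg Prod.fst h)
    · exact (ends_iff_one T τ X y c k φ 1).2 (congrArg Prod.snd h)

lemma val_inj {X : SP (Wr C)} {x y : Vt X} {c : Cᵒᵖ} {k : SimplexCategoryᵒᵖ}
    {z w : ((Hm X x y).obj c).obj k} (h : Hm.val z = Hm.val w) : z = w := Subtype.ext h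

/-- `V[1](p)` on the simplices `(id, b)`. -/
lemma push_vsOf {B B' : SP C} (p : B ⟶ B') {c : C} {k : SimplexCategoryᵒᵖ}
    (b : (B.obj (op c)).obj k) :
    ((V1map p).app (op (seg c))).app k (vsOf B b) = vsOf B' ((p.app (op c)).app k b) :=
  VS.ext' rfl fun _ _ _ _ => rfl

/-- The functoriality of `VFr T` on the simplices `(id, b)`. -/
lemma frame_vsOf (T : Fr C) {c c' : C} (f : c ⟶ c') (m : SimplexCategory) {d : C}
    {k : SimplexCategoryᵒᵖ} (b : (((T.obj c).obj m).obj (op d)).obj k) :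
    ((((VFr T).map (segMap f)).app m).app (op (seg d))).app k (vsOf ((T.obj c).obj m) b) =
      vsOf ((T.obj c').obj m) ((((T.map f).app m).app (op d)).app k b) := by
  refine VS.ext' rfl fun i l h h' => ?_
  obtain ⟨j, hj, hj'⟩ := Jump.split (f := OrderHom.id) (g := Wr.Hom.f (segMap f)) h
  refine (VS.pushW_g (X := fun _ : Fin 1 => (T.obj c).obj m)
    (Y := fun _ : Fin 1 => (T.obj c').obj m) (Wr.Hom.f (segMap f))
    (fun j k h => (T.map (Wr.Hom.g (segMap f) j k h)).app m) (vsOf ((T.obj c).obj m) b)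
    hj hj').trans ?_
  obtain rfl : j = l := jump_id.mp hj'
  have e : Wr.Hom.g (segMap f) j j hj' = f :=
    Wr.ofComp_g (X := fun _ => c) (Y := fun _ => c') (fun _ => f) j hj'
  exact congrArg (fun t : c ⟶ c' => (((T.map t).app m).app (op d)).app k b) e

/-- The augmentation on the simplices `(id, b)`. -/
lemma aug_vsOf {T : Fr C} (τ : T ⟶ yoFr C) (c : C) (m : SimplexCategory) {d : C}
    {k : SimplexCategoryᵒᵖ} (b : (((T.obj c).obj m).obj (op d)).obj k) :
    ((((VFrAug τ).app (seg c)).app m).app (op (seg d))).app k (vsOf ((T.obj c).obj m) b) =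
      segMap ((((τ.app c).app m).app (op d)).app k b : d ⟶ c) := by
  refine Wr.hom_ext' rfl fun i l h h' => ?_
  obtain rfl : i = l := jump_id.mp h
  exact (Wr.ofComp_g (X := fun _ => d) (Y := fun _ => c)
    (fun _ => ((((τ.app c).app m).app (op d)).app k b : d ⟶ c)) i h').symm

section Main

variable (T : Fr C) (τ : T ⟶ yoFr C) (X : SP (Wr C)) (x y : Vt X)
  (E : ∀ B : SP C, Mp B (Hm X x y) ≅ Fb (endsV B X) (x, y))
  (hE : ∀ (B : SP C) (k : SimplexCategoryᵒᵖ) (φ : (Fb (endsV B X) (x, y)).obj k) (c : Cᵒᵖ)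
        (l : SimplexCategoryᵒᵖ) (s : l.unop ⟶ k.unop) (b : (B.obj c).obj l),
        Hm.val (((E B).inv.app k φ : MpS B (Hm X x y) k.unop).app c l s b) =
          (φ.1 : MpS (V1 B) X k.unop).app (op (seg c.unop)) l s (vsOf B b))

/-- The inverse of the comparison isomorphism. -/
noncomputable def invKf (hE : ∀ (B : SP C) (k : SimplexCategoryᵒᵖ)
    (φ : (Fb (endsV B X) (x, y)).obj k) (c : Cᵒᵖ)
        (l : SimplexCategoryᵒᵖ) (s : l.unop ⟶ k.unop) (b : (B.obj c).obj l),
        Hm.val (((E B).inv.app k φ : MpS B (Hm X x y) k.unop).app c l s b) =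
          (φ.1 : MpS (V1 B) X k.unop).app (op (seg c.unop)) l s (vsOf B b)) :
    Hm (Kf (VFr T) X) (vtMap ((SFun.ofFrame (VFr T) (VFrAug τ)).η X) x)
      (vtMap ((SFun.ofFrame (VFr T) (VFrAug τ)).η X) y) ⟶ Kf T (Hm X x y) where
  app c :=
    { app := fun k => ↾ fun φ => (E ((T.obj c.unop).obj k.unop)).inv.app k
        ⟨φ.1, (ends_iff T τ X x y c.unop k φ.1).1 φ.2⟩
      naturality := fun k l α => by
        refine ConcreteCategory.hom_ext _ _ fun φ => ?_
        refine MpS.ext ?_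
        funext c' r s b
        refine val_inj ?_
        refine (hE _ _ _ _ _ _ _).trans (Eq.trans ?_ (hE _ _ _ _ _ _ _).symm)
        exact congrArg ((φ.1 : MpS (V1 ((T.obj c.unop).obj k.unop)) X k.unop).app
          (op (seg c'.unop)) r (s ≫ α.unop)) (push_vsOf ((T.obj c.unop).map α.unop) b) }
  naturality c c' f := by
    refine NatTrans.ext (funext fun k => ?_)
    refine ConcreteCategory.hom_ext _ _ fun φ => ?_
    refine MpS.ext ?_
    funext d r s b
    refine val_inj ?_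
    refine (hE _ _ _ _ _ _ _).trans (Eq.trans ?_ (hE _ _ _ _ _ _ _).symm)
    exact congrArg ((φ.1 : MpS (V1 ((T.obj c.unop).obj k.unop)) X k.unop).app
      (op (seg d.unop)) r s) (frame_vsOf T f.unop k.unop b)

end Main

theorem exists_HmKf_aux (T : Fr C) (τ : T ⟶ yoFr C) (X : SP (Wr C)) (x y : Vt X)
    (hadj : ∀ B : SP C, ∃ e : Mp B (Hm X x y) ≅ Fb (endsV B X) (x, y),
      ∀ (k : SimplexCategoryᵒᵖ) (φ : (Fb (endsV B X) (x, y)).obj k) (c : Cᵒᵖ)
        (l : SimplexCategoryᵒᵖ) (s : l.unop ⟶ k.unop) (b : (B.obj c).obj l),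
        Hm.val ((e.inv.app k φ : MpS B (Hm X x y) k.unop).app c l s b) =
          (φ.1 : MpS (V1 B) X k.unop).app (op (seg c.unop)) l s (vsOf B b)) :
    ∃ e : Kf T (Hm X x y) ≅ Hm (Kf (VFr T) X)
        (vtMap ((SFun.ofFrame (VFr T) (VFrAug τ)).η X) x)
        (vtMap ((SFun.ofFrame (VFr T) (VFrAug τ)).η X) y),
      (SFun.ofFrame T τ).η (Hm X x y) ≫ e.hom =
        HmMap ((SFun.ofFrame (VFr T) (VFrAug τ)).η X) x y := by
  choose E hE using hadj
  have hbij : ∀ (c : Cᵒᵖ) (k : SimplexCategoryᵒᵖ),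
      Function.Bijective (((invKf T τ X x y E hE).app c).app k) := by
    intro c k
    have h1 : ∀ ψ : (Mp ((T.obj c.unop).obj k.unop) (Hm X x y)).obj k,
        (E ((T.obj c.unop).obj k.unop)).inv.app k
          ((E ((T.obj c.unop).obj k.unop)).hom.app k ψ) = ψ := fun ψ =>
      ConcreteCategory.congr_hom (NatTrans.congr_app
        (E ((T.obj c.unop).obj k.unop)).hom_inv_id k) ψ
    have h2 : ∀ φ : (Fb (endsV ((T.obj c.unop).obj k.unop) X) (x, y)).obj k,
        (E ((T.obj c.unop).obj k.unop)).hom.app k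
          ((E ((T.obj c.unop).obj k.unop)).inv.app k φ) = φ := fun φ =>
      ConcreteCategory.congr_hom (NatTrans.congr_app
        (E ((T.obj c.unop).obj k.unop)).inv_hom_id k) φ
    constructor
    · intro φ ψ h
      have h3 : (E ((T.obj c.unop).obj k.unop)).inv.app k
          ⟨φ.1, (ends_iff T τ X x y c.unop k φ.1).1 φ.2⟩ =
          (E ((T.obj c.unop).obj k.unop)).inv.app k
          ⟨ψ.1, (ends_iff T τ X x y c.unop k ψ.1).1 ψ.2⟩ := h
      have h4 := (h2 _).symm.trans ((congrArg _ h3).trans (h2 _))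
      have h5 : φ.1 = ψ.1 := congrArg
        (fun t : (Fb (endsV ((T.obj c.unop).obj k.unop) X) (x, y)).obj k => t.1) h4
      exact Subtype.ext h5
    · intro ψ
      refine ⟨⟨((E ((T.obj c.unop).obj k.unop)).hom.app k ψ).1,
        (ends_iff T τ X x y c.unop k _).2 ((E ((T.obj c.unop).obj k.unop)).hom.app k ψ).2⟩, ?_⟩
      exact h1 ψ
  have hiso : IsIso (invKf T τ X x y E hE) := by
    have : ∀ c, IsIso ((invKf T τ X x y E hE).app c) := by
      intro c
      have : ∀ k, IsIso (((invKf T τ X x y E hE).app c).app k) := fun k =>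
        (isIso_iff_bijective _).2 (hbij c k)
      exact NatIso.isIso_of_isIso_app _
    exact NatIso.isIso_of_isIso_app _
  refine ⟨(asIso (invKf T τ X x y E hE)).symm, ?_⟩
  have key : (SFun.ofFrame T τ).η (Hm X x y) =
      HmMap ((SFun.ofFrame (VFr T) (VFrAug τ)).η X) x y ≫ invKf T τ X x y E hE := by
    refine NatTrans.ext (funext fun c => NatTrans.ext (funext fun k => ?_))
    refine ConcreteCategory.hom_ext _ _ fun z => ?_
    refine MpS.ext ?_
    funext d r s b
    refine val_inj ?_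
    refine Eq.trans ?_ (hE _ _ _ _ _ _ _).symm
    exact (congrArg (fun t => (X.map (Quiver.Hom.op t)).app r ((X.obj _).map s.op z.1))
      (aug_vsOf τ c.unop k.unop b)).symm
  rw [key]
  exact (Category.assoc _ _ _).trans ((congrArg (_ ≫ ·)
    (asIso (invKf T τ X x y E hE)).hom_inv_id).trans (Category.comp_id _))

end Pool.Agent.Helper25.FL2
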