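import Pool.Agent.Helper58.FL2.Flag2

/-!
# FL2-F0: truncations and mapping presheaves
-/

open CategoryTheory MonoidalCategory Opposite

set_option autoImplicit false

namespace Pool.Agent.Helper25.FL2

open FL

section Gen

variable {C : Type} [SmallCategory C]

/-- Two morphisms out of an object of length `0` with the same underlying map agree. -/
lemma hom_ext_zero {c : Fin 0 → C} {Y : Wr C} {φ ψ : (⟨0, c⟩ : Wr C) ⟶ Y}
    (h : Wr.Hom.f φ = Wr.Hom.f ψ) : φ = ψ :=
  Wr.hom_ext' h fun (i : Fin 0) _ _ _ => i.elim0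

lemma map_segMap (F : C ⥤ C) {c c' : C} (f : c ⟶ c') :
    (Wr.map F).map (segMap f) = segMap (F.map f) := by
  refine Wr.hom_ext' rfl fun i j h h' => ?_
  obtain rfl : i = j := jump_id.mp h
  have e1 : Wr.Hom.g (segMap f) i i (jump_id.mpr rfl) = f :=
    Wr.ofComp_g (X := fun _ => c) (Y := fun _ => c') (fun _ => f) i (jump_id.mpr rfl)
  have e2 : Wr.Hom.g (segMap (F.map f)) i i (jump_id.mpr rfl) = F.map f :=
    Wr.ofComp_g (X := fun _ => F.obj c) (Y := fun _ => F.obj c') (fun _ => F.map f) i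
      (jump_id.mpr rfl)
  exact (congrArg F.map e1).trans e2.symm

/-- The unit of `Δ ≀ F` at `[0]` has an inverse. -/
lemma unit_toPt (F : C ⥤ C) (τ : 𝟭 C ⟶ F) :
    (Wr.mapIdNat τ).app Wr.pt ≫ Wr.toPt ((Wr.map F).obj Wr.pt) = 𝟙 _ := Wr.toPt_unique _ _

lemma toPt_unit (F : C ⥤ C) (τ : 𝟭 C ⟶ F) :
    Wr.toPt ((Wr.map F).obj Wr.pt) ≫ (Wr.mapIdNat τ).app Wr.pt = 𝟙 _ := by
  refine hom_ext_zero (c := fun i => F.obj ((Wr.pt : Wr C).obj i)) ?_
  ext x
  exact congrArg Fin.val (Subsingleton.elim (α := Fin 1) _ _)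

lemma unit_vtx (F : C ⥤ C) (τ : 𝟭 C ⟶ F) (c : C) (v : Fin 2) :
    (Wr.mapIdNat τ).app Wr.pt ≫ (Wr.map F).map (vtx (seg c) v) = vtx (seg (F.obj c)) v :=
  hom_ext_zero (c := Fin.elim0) rfl

end Gen

section

variable {C : Type} [SmallCategory C] (F : C ⥤ C) (τ : 𝟭 C ⟶ F) (X : SP (Wr C))

lemma unit_inj (k : SimplexCategoryᵒᵖ) :
    Function.Injective fun a : (((Wr.map F).op ⋙ X).obj (op Wr.pt)).obj k =>
      ((X.map ((Wr.mapIdNat τ).app Wr.pt).op).app k a : (X.obj (op Wr.pt)).obj k) := by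
  intro a b h
  have key : ∀ z : (X.obj (op ((Wr.map F).obj Wr.pt))).obj k,
      (X.map (Wr.toPt ((Wr.map F).obj Wr.pt)).op).app k
        ((X.map ((Wr.mapIdNat τ).app Wr.pt).op).app k z) = z := by
    intro z
    rw [← sp_comp, ← op_comp, toPt_unit]
    exact sp_id X z
  exact (key a).symm.trans ((congrArg _ h).trans (key b))

lemma unit_surj (k : SimplexCategoryᵒᵖ) :
    Function.Surjective fun a : (((Wr.map F).op ⋙ X).obj (op Wr.pt)).obj k =>
      ((X.map ((Wr.mapIdNat τ).app Wr.pt).op).app k a : (X.obj (op Wr.pt)).obj k) := by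
  intro z
  refine ⟨(X.map (Wr.toPt ((Wr.map F).obj Wr.pt)).op).app k z, ?_⟩
  show (X.map ((Wr.mapIdNat τ).app Wr.pt).op).app k
    ((X.map (Wr.toPt ((Wr.map F).obj Wr.pt)).op).app k z) = z
  rw [← sp_comp, ← op_comp, unit_toPt]
  exact sp_id X z

/-- The image of a vertex under the unit. -/
noncomputable abbrev vu (a : Vt ((Wr.map F).op ⋙ X)) : Vt X :=
  (X.map ((Wr.mapIdNat τ).app Wr.pt).op).app _ a

lemma cond_iff (a : Vt ((Wr.map F).op ⋙ X)) (c : C) (k : SimplexCategoryᵒᵖ)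
    (z : (X.obj (op (seg (F.obj c)))).obj k) (v : Fin 2) :
    (X.map ((Wr.map F).map (vtx (seg c) v)).op).app k z =
        cst (((Wr.map F).op ⋙ X).obj (op Wr.pt)) a k ↔
      (X.map (vtx (seg (F.obj c)) v).op).app k z = cst (X.obj (op Wr.pt)) (vu F τ X a) k := by
  have e1 : (X.map (vtx (seg (F.obj c)) v).op).app k z =
      (X.map ((Wr.mapIdNat τ).app Wr.pt).op).app k
        ((X.map ((Wr.map F).map (vtx (seg c) v)).op).app k z) := by
    refine Eq.trans ?_ (sp_comp X ((Wr.map F).map (vtx (seg c) v)).op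
      ((Wr.mapIdNat τ).app Wr.pt).op z)
    exact congrArg (fun t => (X.map (Quiver.Hom.op t)).app k z) (unit_vtx F τ c v).symm
  have e2 : cst (X.obj (op Wr.pt)) (vu F τ X a) k =
      (X.map ((Wr.mapIdNat τ).app Wr.pt).op).app k
        (cst (((Wr.map F).op ⋙ X).obj (op Wr.pt)) a k) :=
    (app_cst (X.map ((Wr.mapIdNat τ).app Wr.pt).op) a k).symm
  rw [e1, e2]
  exact (unit_inj F τ X k).eq_iff.symm

lemma cond_iff' (a b : Vt ((Wr.map F).op ⋙ X)) (c : C) (k : SimplexCategoryᵒᵖ)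
    (z : (X.obj (op (seg (F.obj c)))).obj k) :
    (ends ((Wr.map F).op ⋙ X) c).app k z = cst _ (a, b) k ↔
      (ends X (F.obj c)).app k z = cst _ (vu F τ X a, vu F τ X b) k := by
  constructor
  · intro h
    refine Prod.ext ?_ ?_
    · exact (cond_iff F τ X a c k z 0).1 (congrArg Prod.fst h)
    · exact (cond_iff F τ X b c k z 1).1 (congrArg Prod.snd h)
  · intro h
    refine Prod.ext ?_ ?_
    · exact (cond_iff F τ X a c k z 0).2 (congrArg Prod.fst h)
    · exact (cond_iff F τ X b c k z 1).2 (congrArg Prod.snd h)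

/-- The comparison isomorphism of the mapping presheaves. -/
noncomputable def hmIso (a b : Vt ((Wr.map F).op ⋙ X)) :
    Hm ((Wr.map F).op ⋙ X) a b ≅ F.op ⋙ Hm X (vu F τ X a) (vu F τ X b) where
  hom :=
    { app := fun c =>
        { app := fun k => ↾ fun z => ⟨z.1, (cond_iff' F τ X a b c.unop k z.1).1 z.2⟩
          naturality := fun _ _ _ => rfl }
      naturality := fun c c' f => by
        refine NatTrans.ext (funext fun k => ?_)
        refine ConcreteCategory.hom_ext _ _ fun z => ?_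
        refine Subtype.ext ?_
        exact congrArg (fun t => (X.map (Quiver.Hom.op t)).app k z.1) (map_segMap F f.unop) }
  inv :=
    { app := fun c =>
        { app := fun k => ↾ fun z => ⟨z.1, (cond_iff' F τ X a b c.unop k z.1).2 z.2⟩
          naturality := fun _ _ _ => rfl }
      naturality := fun c c' f => by
        refine NatTrans.ext (funext fun k => ?_)
        refine ConcreteCategory.hom_ext _ _ fun z => ?_
        refine Subtype.ext ?_
        exact congrArg (fun t => (X.map (Quiver.Hom.op t)).app k z.1) (map_segMap F f.unop).symm }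
  hom_inv_id := rfl
  inv_hom_id := rfl

end

variable {n : ℕ}

theorem tr_vt_bij (X : SP (Th (n + 1))) (i : ℕ) :
    Function.Bijective fun a : Vt (C := Th n) ((tr (n + 1) (i + 1)).op ⋙ X) =>
      ((X.map ((trUnit (n + 1) (i + 1)).app (ptT (n + 1))).op).app _ a : Vt (C := Th n) X) :=
  ⟨unit_inj (C := Th n) (tr n i) (trUnit n i) X _, unit_surj (C := Th n) (tr n i) (trUnit n i) X _⟩

theorem tr_Hm (X : SP (Th (n + 1))) (i : ℕ) (a b : Vt (C := Th n) ((tr (n + 1) (i + 1)).op ⋙ X)) :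
    ∃ e : Hm (C := Th n) ((tr (n + 1) (i + 1)).op ⋙ X) a b ≅
        (tr n i).op ⋙ Hm (C := Th n) X
          ((X.map ((trUnit (n + 1) (i + 1)).app (ptT (n + 1))).op).app _ a)
          ((X.map ((trUnit (n + 1) (i + 1)).app (ptT (n + 1))).op).app _ b),
      ∀ (c : (Th n)ᵒᵖ) (k : SimplexCategoryᵒᵖ)
        (z : ((Hm (C := Th n) ((tr (n + 1) (i + 1)).op ⋙ X) a b).obj c).obj k),
        Hm.val (C := Th n) (X := X) (c := op ((tr n i).obj c.unop)) ((e.hom.app c).app k z) =
          Hm.val (C := Th n) z :=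
  ⟨hmIso (C := Th n) (tr n i) (trUnit n i) X a b, fun _ _ _ => rfl⟩

/-- The levels of `filt X`. -/
theorem level_filt (X : SP (Th n)) (i : Fin (n + 1)) :
    ∃ e : level (filt X) i ≅ (tr n i).op ⋙ X, ∀ (θ : (Th n)ᵒᵖ) (k : SimplexCategoryᵒᵖ)
      (x : (X.obj (op ((tr n i).obj θ.unop))).obj k), (e.hom.app θ).app k x = x := by
  refine ⟨NatIso.ofComponents (fun θ => Iso.refl _) ?_, fun _ _ _ => rfl⟩
  intro θ θ' f
  refine (Category.comp_id _).trans (Eq.trans ?_ (Category.id_comp _).symm)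
  refine congrArg X.map ?_
  refine Quiver.Hom.unop_inj ?_
  exact (congrArg (fun t : tr n i.1 ⟶ tr n i.1 => (tr n i).map f.unop ≫ t.app θ.unop)
    (trMap_refl n i.1 (le_refl _))).trans (Category.comp_id _)

end Pool.Agent.Helper25.FL2
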