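import Pool.Agent.Helper25.FL2.TrSgAux
import Pool.Agent.Helper41.FL2.V4
import Pool.Agent.Helper41.FL2.V5
import Pool.Agent.Helper61.FL2.BSegC

open CategoryTheory MonoidalCategory Opposite CartesianMonoidalCategory

set_option autoImplicit false

namespace Pool.Agent.Helper25.FL2

open FL Pool.Agent.Helper88.FL Pool.Agent.Helper54.FL2
open Pool.Agent.Helper61.FL2 (spLoc_iff)
open Helper41FL2 (sg_succ_iff cj_succ_iff cj_zero_iff isCat_iff sg_of_objHoEq sg_RR)

theorem isCat_of_truncated_zero : ∀ {n : ℕ} {Z : SP (Th n)} (_ : InjFib Z) (_ : Truncated 0 Z),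
    IsCat n Z
  | 0, Z, hZ, _ => isCat_iff.2 ⟨⟨hZ, fun θ S hS => by cases hS⟩, fun j P Q f hf => by cases hf⟩
  | n + 1, Z, hZ, h => by
    have h' : ∀ θ : Wr (Th n), HoEq (Z.map (Wr.toPt θ).op) := fun θ => h θ
    have hH : ∀ x y : Vt (C := Th n) Z, IsCat n (Hm (C := Th n) Z x y) := fun x y =>
      isCat_of_truncated_zero (Helper53FL2.Hm_injFib hZ x y) fun c =>
        Hm_map_hoEq (C := Th n) hZ h' x y ((trUnit n 0).app c)
    have hO : ∀ z : Vt (C := Th n) Z, ∃ x ∈ (Set.univ : Set (Vt (C := Th n) Z)),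
        Cn (Z.obj (op (ptT (n + 1)))) x z := fun z => ⟨z, trivial, cn_refl z⟩
    refine isCat_iff.2 ⟨(sg_succ_iff hZ Set.univ hO).2 ⟨(spLoc_iff hZ).2
      (bSeg_of_const (C := Th n) hZ h'), fun x _ y _ => (isCat_iff.1 (hH x y)).1⟩, fun j => ?_⟩
    cases j with
    | zero => exact cj_zero_iff.2 (iso_local_const hZ h')
    | succ j => exact (cj_succ_iff hZ Set.univ hO).2 fun x _ y _ => (isCat_iff.1 (hH x y)).2 j

theorem sg_tr : ∀ {n : ℕ} {X : SP (Th n)} (_ : Sg n X) (i : ℕ),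
    Sg n ((RR (Th n)).obj ((tr n i).op ⋙ X))
  | 0, X, hX, i => ⟨Helper41FL2.RR_injFib fun a =>
      Pool.Agent.Helper91.FL2.objKan_of_injFib hX.1 _, fun θ S hS => by cases hS⟩
  | n + 1, X, hX, 0 => by
    have hK := Pool.Agent.Helper91.FL2.objKan_of_injFib hX.1
    have hA : ObjKan ((tr (n + 1) 0).op ⋙ X) := fun a => hK _
    refine (isCat_iff.1 (isCat_of_truncated_zero (Helper41FL2.RR_injFib hA) fun θ => ?_)).1
    have hη := Helper41FL2.RR_objHoEq hA
    have hK' := Helper41FL2.RR_objKan hA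
    have e := ((RR (Th (n + 1))).η ((tr (n + 1) 0).op ⋙ X)).naturality
      ((trUnit (n + 1) 0).app θ).op
    have e1 : ((tr (n + 1) 0).op ⋙ X).map ((trUnit (n + 1) 0).app θ).op =
        𝟙 (X.obj (op (ptT (n + 1)))) := X.map_id _
    have e2 : ((tr (n + 1) 0).op ⋙ X).map ((trUnit (n + 1) 0).app θ).op ≫
        ((RR (Th (n + 1))).η ((tr (n + 1) 0).op ⋙ X)).app (op θ) =
        ((RR (Th (n + 1))).η ((tr (n + 1) 0).op ⋙ X)).app (op θ) :=
      (congrArg (fun t : X.obj (op (ptT (n + 1))) ⟶ X.obj (op (ptT (n + 1))) =>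
        t ≫ (((RR (Th (n + 1))).η ((tr (n + 1) 0).op ⋙ X)).app (op θ) :
          X.obj (op (ptT (n + 1))) ⟶ _)) e1).trans (Category.id_comp _)
    refine hoEq_of_comp_left (hA _) (hK' _) (hK' _) (hη _) ?_
    have e3 := e2.symm.trans e
    exact e3 ▸ hη (op θ)
  | n + 1, X, hX, i + 1 => by
    have hO : ∀ z : Vt (C := Th n) X, ∃ x ∈ (Set.univ : Set (Vt (C := Th n) X)),
        Cn (X.obj (op (ptT (n + 1)))) x z := fun z => ⟨z, trivial, cn_refl z⟩
    have hS := (sg_succ_iff hX.1 Set.univ hO).1 hX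
    have hV : VFib (C := Th n) ((tr (n + 1) (i + 1)).op ⋙ X) :=
      vfib_tr (C := Th n) (tr n i) (trUnit n i) X (Helper53FL2.InjFib.vfib hX.1)
    have hB : BSeg (C := Th n) ((tr (n + 1) (i + 1)).op ⋙ X) :=
      bSeg_tr (C := Th n) (tr n i) (trUnit n i) X ((spLoc_iff hX.1).1 hS.1)
    refine sg_RR hV hB fun x y => ?_
    let e := hmIso (C := Th n) (tr n i) (trUnit n i) X x y
    have hH := hS.2 (vu (C := Th n) (tr n i) (trUnit n i) X x) trivial
      (vu (C := Th n) (tr n i) (trUnit n i) X y) trivial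
    have h1 : ObjKan (Hm (C := Th n) ((tr (n + 1) (i + 1)).op ⋙ X) x y) := fun c =>
      kan_fb (hV.2 c.unop) (x, y)
    have h2 : ObjKan ((tr n i).op ⋙ Hm (C := Th n) X
        (vu (C := Th n) (tr n i) (trUnit n i) X x)
        (vu (C := Th n) (tr n i) (trUnit n i) X y)) := fun c =>
      Pool.Agent.Helper91.FL2.objKan_of_injFib hH.1 _
    exact (sg_of_objHoEq (Helper41FL2.RR_injFib h1) (Helper41FL2.RR_injFib h2)
      (Helper41FL2.RR_map_objHoEq h1 h2 (f := e.hom) fun c => hoEq_of_isIso (e.hom.app c))).2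
      (sg_tr hH i)

end Pool.Agent.Helper25.FL2
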