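import Pool.Agent.Helper25.FL2.TrHm
import Pool.Agent.Helper53.FL2.HmAdj
import Pool.Agent.Helper54.FL2.Const
import Pool.Agent.Helper54.FL2.Fib
import Pool.Agent.Helper41.FL2.RR

/-!
# FL2-F1a: truncated presheaves, first part (presheaves on a wreath product)
-/

open CategoryTheory MonoidalCategory Opposite CartesianMonoidalCategory

set_option autoImplicit false

namespace Pool.Agent.Helper25.FL2

open FL Pool.Agent.Helper88.FL Pool.Agent.Helper54.FL2

theorem fst_kanFib {E B : SSet.{0}} (hB : SSet.KanComplex B) : KanFib (fst E B) := by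
  intro n i
  have hl := kanFib_toUnit hB n i
  refine ⟨fun {u v} sq => ?_⟩
  have sq' : CommSq (u ≫ snd E B) (SSet.horn.{0} (n + 1) i).ι (toUnit B) (toUnit _) :=
    ⟨toUnit_unique _ _⟩
  refine ⟨⟨{ l := lift v sq'.lift, fac_left := ?_, fac_right := lift_fst _ _ }⟩⟩
  refine CartesianMonoidalCategory.hom_ext _ _ ?_ ?_
  · rw [Category.assoc, lift_fst]
    exact sq.w.symm
  · rw [Category.assoc, lift_snd]
    exact sq'.fac_left

section Const

variable {C : Type} [SmallCategory C] {Z : SP (Wr C)}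

/-- In a constant presheaf all restriction maps are equivalences. -/
theorem map_hoEq (hZ : InjFib Z) (h : ∀ θ : Wr C, HoEq (Z.map (Wr.toPt θ).op)) {θ θ' : Wr C}
    (φ : θ ⟶ θ') : HoEq (Z.map φ.op) := by
  have hK := Pool.Agent.Helper91.FL2.objKan_of_injFib hZ
  refine hoEq_of_comp_left (hK _) (hK _) (hK _) (h θ') ?_
  rw [← Z.map_comp, ← op_comp, Wr.toPt_unique (φ ≫ Wr.toPt θ') (Wr.toPt θ)]
  exact h θ

theorem bSeg_of_const (hZ : InjFib Z) (h : ∀ θ : Wr C, HoEq (Z.map (Wr.toPt θ).op)) :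
    BSeg Z := by
  intro r c
  have hK := Pool.Agent.Helper91.FL2.objKan_of_injFib hZ
  have hq : KanFib (Z.map (vtx (seg (c (Fin.last r))) 0).op) := by
    have e : Z.map (vtx (seg (c (Fin.last r))) 0).op =
        ends Z (c (Fin.last r)) ≫ fst _ _ := (lift_fst _ _).symm
    rw [e]
    exact kanFib_comp (Helper53FL2.ends_kanFib hZ _) (fst_kanFib (hK _))
  have hq' : TrivFib (Z.map (vtx (seg (c (Fin.last r))) 0).op) :=
    Pool.Agent.Helper45.FL2.trivFib_of_hoEq (hK _) (hK _) hq (map_hoEq hZ h _)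
  have hf : HoEq (Fp.fst (Z.map (vtx (init c) (Fin.last r)).op)
      (Z.map (vtx (seg (c (Fin.last r))) 0).op)) :=
    Pool.Agent.Helper45.FL2.TrivFib.hoEq (Fp_fst_trivFib _ _ hq')
  have hKF := kan_total (Fp_fst_kanFib (Z.map (vtx (init c) (Fin.last r)).op)
      (Z.map (vtx (seg (c (Fin.last r))) 0).op) hq) (hK _)
  refine hoEq_of_comp_right (hK _) hKF (hK _) hf ?_
  have e : binMap Z c ≫ Fp.fst (Z.map (vtx (init c) (Fin.last r)).op)
      (Z.map (vtx (seg (c (Fin.last r))) 0).op) = Z.map (initMap c).op := Fp_lift_fst _ _ _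
  rw [e]
  exact map_hoEq hZ h _

theorem Hm_map_hoEq (hZ : InjFib Z) (h : ∀ θ : Wr C, HoEq (Z.map (Wr.toPt θ).op)) (x y : Vt Z)
    {c c' : C} (u : c ⟶ c') : HoEq ((Hm Z x y).map u.op) :=
  Fb_map_hoEq (Helper53FL2.ends_kanFib hZ c') (Helper53FL2.ends_kanFib hZ c)
    (Helper53FL2.kan_pt2 hZ) (Helper53FL2.kan_pt2 hZ) (Z.map (segMap u).op) (𝟙 _)
    ((ends_nat Z u).trans (Category.comp_id _).symm) (map_hoEq hZ h _) (hoEq_of_isIso _) (x, y)

end Const

section Tr

variable {C : Type} [SmallCategory C] (F : C ⥤ C) (τ : 𝟭 C ⟶ F) (X : SP (Wr C))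

lemma toPt_vtx (θ : Wr C) (i : Fin (θ.len + 1)) :
    Wr.toPt ((Wr.map F).obj Wr.pt) ≫ vtx ((Wr.map F).obj θ) i = (Wr.map F).map (vtx θ i) :=
  hom_ext_zero (c := fun i => F.obj ((Wr.pt : Wr C).obj i)) rfl

lemma unit_vtx' (θ : Wr C) (i : Fin (θ.len + 1)) :
    (Wr.mapIdNat τ).app Wr.pt ≫ (Wr.map F).map (vtx θ i) = vtx ((Wr.map F).obj θ) i :=
  hom_ext_zero (c := Fin.elim0) rfl

lemma map_initMap {r : ℕ} (c : Fin (r + 1) → C) :
    (Wr.map F).map (initMap c) = initMap fun i => F.obj (c i) :=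
  Wr.hom_ext' rfl fun (i : Fin r) (j : Fin (r + 1)) h _ => eqToHom_map F (by
    have h1 : i.1 ≤ j.1 := h.1
    have h2 : j.1 + 1 ≤ i.1 + 1 := h.2
    refine congrArg c (Fin.ext ?_)
    show i.1 = j.1
    omega)

lemma map_lastMap {r : ℕ} (c : Fin (r + 1) → C) :
    (Wr.map F).map (lastMap' c) = lastMap' fun i => F.obj (c i) :=
  Wr.hom_ext' rfl fun (i : Fin 1) (j : Fin (r + 1)) h _ => eqToHom_map F (by
    have h1 : r + i.1 ≤ j.1 := h.1
    refine congrArg c (Fin.ext ?_)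
    have h2 : j.1 < r + 1 := j.2
    show r = j.1
    omega)

include τ in
lemma isIso_toPt : IsIso (Wr.toPt ((Wr.map F).obj (Wr.pt : Wr C))) :=
  ⟨(Wr.mapIdNat τ).app Wr.pt, toPt_unit F τ, unit_toPt F τ⟩

include τ in
theorem vfib_tr (hX : VFib X) : VFib ((Wr.map F).op ⋙ X) := by
  refine ⟨fun a => hX.1 _, fun c => ?_⟩
  have := isIso_toPt F τ
  have e : ends ((Wr.map F).op ⋙ X) c = ends X (F.obj c) ≫
      (X.map (Wr.toPt ((Wr.map F).obj (Wr.pt : Wr C))).op ⊗ₘ
        X.map (Wr.toPt ((Wr.map F).obj (Wr.pt : Wr C))).op) := by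
    refine NatTrans.ext (funext fun k => ?_)
    refine ConcreteCategory.hom_ext _ _ fun z => ?_
    have key : ∀ i : Fin 2, (X.map ((Wr.map F).map (vtx (seg c) i)).op).app k z =
        (X.map (Wr.toPt ((Wr.map F).obj (Wr.pt : Wr C))).op).app k
          ((X.map (vtx (seg (F.obj c)) i).op).app k z) := by
      intro i
      refine Eq.trans ?_ (sp_comp X (vtx (seg (F.obj c)) i).op
        (Wr.toPt ((Wr.map F).obj (Wr.pt : Wr C))).op z)
      exact congrArg (fun t => (X.map (Quiver.Hom.op t)).app k z) (toPt_vtx F (seg c) i).symm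
    exact Prod.ext (key 0) (key 1)
  rw [e]
  exact kanFib_comp (hX.2 _) (Helper53FL2.kanFib_of_isIso _)

/-- The comparison of the fibre products. -/
noncomputable def fpIso {r : ℕ} (c : Fin (r + 1) → C) :
    Fp (X.map (vtx (init fun i => F.obj (c i)) (Fin.last r)).op)
        (X.map (vtx (seg (F.obj (c (Fin.last r)))) 0).op) ≅
      Fp (((Wr.map F).op ⋙ X).map (vtx (init c) (Fin.last r)).op)
        (((Wr.map F).op ⋙ X).map (vtx (seg (c (Fin.last r))) 0).op) where
  hom := Fp.map (𝟙 _) (𝟙 _) (X.map (Wr.toPt ((Wr.map F).obj (Wr.pt : Wr C))).op)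
    ((Category.id_comp _).trans ((congrArg (fun t => X.map (Quiver.Hom.op t))
      (toPt_vtx F (init c) (Fin.last r)).symm).trans (X.map_comp _ _)))
    ((Category.id_comp _).trans ((congrArg (fun t => X.map (Quiver.Hom.op t))
      (toPt_vtx F (seg (c (Fin.last r))) 0).symm).trans (X.map_comp _ _)))
  inv := Fp.map (𝟙 _) (𝟙 _) (X.map ((Wr.mapIdNat τ).app (Wr.pt : Wr C)).op)
    ((Category.id_comp _).trans ((congrArg (fun t => X.map (Quiver.Hom.op t))
      (unit_vtx' F τ (init c) (Fin.last r)).symm).trans (X.map_comp _ _)))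
    ((Category.id_comp _).trans ((congrArg (fun t => X.map (Quiver.Hom.op t))
      (unit_vtx' F τ (seg (c (Fin.last r))) 0).symm).trans (X.map_comp _ _)))
  hom_inv_id := rfl
  inv_hom_id := rfl

include τ in
theorem bSeg_tr (hX : BSeg X) : BSeg ((Wr.map F).op ⋙ X) := by
  intro r c
  refine hoEq_of_arrow_iso (Iso.refl _) (fpIso F τ X c) ?_ (hX r fun i => F.obj (c i))
  refine NatTrans.ext (funext fun k => ?_)
  refine ConcreteCategory.hom_ext _ _ fun z => ?_
  refine Subtype.ext (Prod.ext ?_ ?_)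
  · exact congrArg (fun t => (X.map (Quiver.Hom.op t)).app k z) (map_initMap F c).symm
  · exact congrArg (fun t => (X.map (Quiver.Hom.op t)).app k z) (map_lastMap F c).symm

end Tr

end Pool.Agent.Helper25.FL2
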